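import Pool.Agent.K1H22.SR.Stm

/-! Piece AUT of project SR (for helper22): Dyck decomposition. -/

set_option autoImplicit false

namespace Pool.Agent.K1H33.SR

open Pool.Agent.K1H22.SR

/-- transitions -/
abbrev Tn (T X : Type) : Type := T × Option (X × Bool) × (ℕ × ℕ) × T

variable {T X : Type}

/-- nonterminals -/
inductive NT (T X : Type) : Type
  | D (p q : T)
  | E (t : Tn T X)
  | N (t : Tn T X) (q : T)
  | M (t : Tn T X) (q : T)

open Classical in
/-- the states -/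
noncomputable def St (Tr : Finset (Tn T X)) (t0 : T) : Finset T :=
  insert t0 (Tr.image (fun t => t.1) ∪ Tr.image (fun t => t.2.2.2))

open Classical in
/-- the rules -/
noncomputable def Rl (Tr : Finset (Tn T X)) (t0 : T) : Finset (NT T X × NT T X × NT T X) :=
  ((((Tr.filter (fun t => t.2.1 = none)) ×ˢ St Tr t0).image
      (fun z => (NT.D z.1.1 z.2, NT.E z.1, NT.D z.1.2.2.2 z.2)) ∪
    ((Tr.filter (fun t => t.2.1 ≠ none)) ×ˢ St Tr t0).image
      (fun z => (NT.D z.1.1 z.2, NT.E z.1, NT.N z.1 z.2))) ∪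
    (((Tr ×ˢ Tr).filter
      (fun z => ∃ a, z.1.2.1 = some a ∧ z.2.2.1 = some (a.1, !a.2))) ×ˢ St Tr t0).image
      (fun z => (NT.N z.1.1 z.2, NT.D z.1.1.2.2.2 z.1.2.1, NT.M z.1.2 z.2))) ∪
    (Tr ×ˢ St Tr t0).image (fun z => (NT.M z.1 z.2, NT.E z.1, NT.D z.1.2.2.2 z.2))

open Classical in
/-- the base rules -/
noncomputable def Bb (Tr : Finset (Tn T X)) (t0 : T) : Finset (NT T X × (ℕ × ℕ)) :=
  (St Tr t0).image (fun p => (NT.D p p, (0 : ℕ × ℕ))) ∪ Tr.image (fun t => (NT.E t, t.2.2.1))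

/-- invariant -/
def Inv (Tr : Finset (Tn T X)) : NT T X → ℕ × ℕ → Prop
  | .D p q, v => ∃ l, Pth Tr p q l v ∧ FreeGroup.mk l = 1
  | .E t, v => v = t.2.2.1
  | .N t q, v => ∃ a l, t.2.1 = some a ∧ Pth Tr t.2.2.2 q l v ∧ FreeGroup.mk (a :: l) = 1
  | .M t q, v => ∃ l w, Pth Tr t.2.2.2 q l w ∧ FreeGroup.mk l = 1 ∧ v = t.2.2.1 + w

lemma pth_append {Tr : Finset (Tn T X)} {p q r : T} {l l' : List (X × Bool)} {v w : ℕ × ℕ}
    (h : Pth Tr p q l v) (h' : Pth Tr q r l' w) : Pth Tr p r (l ++ l') (v + w) := by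
  induction h with
  | nil => simpa using h'
  | eps h1 _ ih =>
    rw [add_assoc]
    exact Pth.eps h1 (ih h')
  | letter h1 _ ih =>
    rw [add_assoc]
    exact Pth.letter h1 (ih h')

lemma pth_split {Tr : Finset (Tn T X)} {p q : T} {L : List (X × Bool)} {v : ℕ × ℕ}
    (h : Pth Tr p q L v) : ∀ (l1 l2 : List (X × Bool)) (c : X × Bool), L = l1 ++ c :: l2 →
    ∃ (r r' : T) (v1 v2 v3 : ℕ × ℕ), Pth Tr p r l1 v1 ∧ (r, some c, v2, r') ∈ Tr ∧
      Pth Tr r' q l2 v3 ∧ v = v1 + (v2 + v3) := by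
  induction h with
  | nil =>
    intro l1 l2 c h
    exact absurd h.symm (by simp)
  | @eps p p' q l v w h1 _ ih =>
    intro l1 l2 c h
    obtain ⟨r, r', v1, v2, v3, i1, i2, i3, rfl⟩ := ih l1 l2 c h
    exact ⟨r, r', v + v1, v2, v3, Pth.eps h1 i1, i2, i3, by rw [add_assoc]⟩
  | @letter p p' q a l v w h1 h2 ih =>
    intro l1 l2 c h
    cases l1 with
    | nil =>
      simp only [List.nil_append, List.cons.injEq] at h
      obtain ⟨rfl, rfl⟩ := h
      exact ⟨p, p', 0, v, w, Pth.nil, h1, h2, by rw [zero_add]⟩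
    | cons b l1 =>
      simp only [List.cons_append, List.cons.injEq] at h
      obtain ⟨rfl, h⟩ := h
      obtain ⟨r, r', v1, v2, v3, i1, i2, i3, rfl⟩ := ih l1 l2 c h
      exact ⟨r, r', v + v1, v2, v3, Pth.letter h1 i1, i2, i3, by rw [add_assoc]⟩

lemma red_of_mk {l : List (X × Bool)} (h : FreeGroup.mk l = 1) : FreeGroup.Red l [] := by
  rw [FreeGroup.one_eq_mk, FreeGroup.Red.exact] at h
  obtain ⟨l', h1, h2⟩ := h
  rw [FreeGroup.Red.nil_iff] at h2
  rwa [h2] at h1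

lemma mk_of_red {l : List (X × Bool)} (h : FreeGroup.Red l []) : FreeGroup.mk l = 1 := by
  rw [FreeGroup.one_eq_mk, FreeGroup.Red.exact]
  exact ⟨[], h, FreeGroup.Red.refl⟩

lemma red_split {L : List (X × Bool)} {c : X × Bool} (h : FreeGroup.Red L [c]) :
    ∃ l1 l2, L = l1 ++ c :: l2 ∧ FreeGroup.Red l1 [] ∧ FreeGroup.Red l2 [] := by
  induction h using Relation.ReflTransGen.head_induction_on with
  | refl => exact ⟨[], [], rfl, FreeGroup.Red.refl, FreeGroup.Red.refl⟩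
  | head hstep _ ih =>
    obtain ⟨l1, l2, e, r1, r2⟩ := ih
    cases hstep with
    | @not A B x b =>
      rw [List.append_eq_append_iff] at e
      rcases e with ⟨A', e1, e2⟩ | ⟨A', e1, e2⟩
      · refine ⟨A ++ (x, b) :: (x, !b) :: A', l2, ?_, ?_, r2⟩
        · rw [e2]
          simp
        · rw [e1] at r1
          exact FreeGroup.Red.trans (FreeGroup.Red.Step.to_red FreeGroup.Red.Step.not) r1
      · cases A' with
        | nil =>
          simp only [List.nil_append, List.append_nil] at e1 e2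
          refine ⟨l1 ++ (x, b) :: (x, !b) :: [], l2, ?_, ?_, r2⟩
          · rw [e1, ← e2]
            simp
          · have h1 : FreeGroup.Red (l1 ++ (x, b) :: (x, !b) :: []) (l1 ++ []) :=
              FreeGroup.Red.Step.to_red FreeGroup.Red.Step.not
            rw [List.append_nil] at h1
            exact FreeGroup.Red.trans h1 r1
        | cons d A' =>
          simp only [List.cons_append, List.cons.injEq] at e2
          obtain ⟨rfl, e2⟩ := e2
          refine ⟨l1, A' ++ (x, b) :: (x, !b) :: B, ?_, r1, ?_⟩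
          · rw [e1]
            simp
          · rw [e2] at r2
            exact FreeGroup.Red.trans (FreeGroup.Red.Step.to_red FreeGroup.Red.Step.not) r2

theorem sound (Tr : Finset (Tn T X)) (t0 : T) {x : NT T X} {v : ℕ × ℕ}
    (h : Der (Rl Tr t0) (Bb Tr t0) x v) : Inv Tr x v := by
  classical
  induction h with
  | base h =>
    simp only [Bb, Finset.mem_union, Finset.mem_image, Prod.mk.injEq] at h
    rcases h with ⟨p, _, rfl, rfl⟩ | ⟨t, _, rfl, rfl⟩
    · exact ⟨[], Pth.nil, rfl⟩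
    · rfl
  | node h _ _ ih1 ih2 =>
    simp only [Rl, Finset.mem_union, Finset.mem_image, Finset.mem_product, Finset.mem_filter,
      Prod.mk.injEq] at h
    rcases h with ((⟨z, ⟨⟨h1, h2⟩, h3⟩, rfl, rfl, rfl⟩ | ⟨z, ⟨⟨h1, h2⟩, h3⟩, rfl, rfl, rfl⟩) |
      ⟨z, ⟨⟨⟨h1, h1'⟩, a, h2, h2'⟩, h3⟩, rfl, rfl, rfl⟩) | ⟨z, ⟨h1, h3⟩, rfl, rfl, rfl⟩
    · obtain ⟨⟨p, o, u, p'⟩, q⟩ := z
      simp only at h1 h2 ih1 ih2
      subst h2
      obtain ⟨l, hl, hl1⟩ := ih2
      have e : _ = u := ih1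
      rw [e]
      exact ⟨l, Pth.eps h1 hl, hl1⟩
    · obtain ⟨⟨p, o, u, p'⟩, q⟩ := z
      simp only at h1 h2 ih1 ih2
      obtain ⟨a, l, ha, hl, hl1⟩ := ih2
      simp only at ha
      subst ha
      have e : _ = u := ih1
      rw [e]
      exact ⟨a :: l, Pth.letter h1 hl, hl1⟩
    · obtain ⟨⟨⟨p, o, u, p'⟩, ⟨r, o', u', r'⟩⟩, q⟩ := z
      simp only at h1 h1' h2 h2' ih1 ih2
      subst h2
      subst h2'
      obtain ⟨l, hl, hl1⟩ := ih1
      obtain ⟨l', w, hl', hl1', e⟩ := ih2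
      refine ⟨a, l ++ (a.1, !a.2) :: l', rfl, ?_, ?_⟩
      · rw [e]
        exact pth_append hl (Pth.letter h1' hl')
      · apply mk_of_red
        have r1 := red_of_mk hl1
        have r2 := red_of_mk hl1'
        have s1 : FreeGroup.Red (a :: (l ++ (a.1, !a.2) :: l')) (a :: ([] ++ (a.1, !a.2) :: [])) := by
          have := FreeGroup.Red.append_append r1
            (FreeGroup.Red.cons_cons (p := (a.1, !a.2)) r2)
          exact FreeGroup.Red.cons_cons this
        refine s1.trans ?_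
        have s2 : FreeGroup.Red ([] ++ (a.1, a.2) :: (a.1, !a.2) :: []) ([] ++ []) :=
          FreeGroup.Red.Step.to_red FreeGroup.Red.Step.not
        exact s2
    · obtain ⟨⟨p, o, u, p'⟩, q⟩ := z
      simp only at h1 ih1 ih2
      obtain ⟨l, hl, hl1⟩ := ih2
      have e : _ = u := ih1
      exact ⟨l, _, hl, hl1, by rw [e]⟩

lemma src_mem {Tr : Finset (Tn T X)} (t0 : T) {t : Tn T X} (h : t ∈ Tr) : t.1 ∈ St Tr t0 := by
  classical
  unfold St
  rw [Finset.mem_insert, Finset.mem_union, Finset.mem_image]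
  exact Or.inr (Or.inl ⟨t, h, rfl⟩)

lemma tgt_mem {Tr : Finset (Tn T X)} (t0 : T) {t : Tn T X} (h : t ∈ Tr) : t.2.2.2 ∈ St Tr t0 := by
  classical
  unfold St
  rw [Finset.mem_insert, Finset.mem_union, Finset.mem_image, Finset.mem_image]
  exact Or.inr (Or.inr ⟨t, h, rfl⟩)

lemma derE {Tr : Finset (Tn T X)} (t0 : T) {t : Tn T X} (h : t ∈ Tr) :
    Der (Rl Tr t0) (Bb Tr t0) (NT.E t) t.2.2.1 := by
  classical
  apply Der.base
  unfold Bb
  rw [Finset.mem_union, Finset.mem_image, Finset.mem_image]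
  exact Or.inr ⟨t, h, rfl⟩

lemma derD0 {Tr : Finset (Tn T X)} {t0 p : T} (h : p ∈ St Tr t0) :
    Der (Rl Tr t0) (Bb Tr t0) (NT.D p p) 0 := by
  classical
  apply Der.base
  unfold Bb
  rw [Finset.mem_union, Finset.mem_image]
  exact Or.inl ⟨p, h, rfl⟩

lemma derM {Tr : Finset (Tn T X)} {t0 q : T} {t : Tn T X} (h : t ∈ Tr) (hq : q ∈ St Tr t0)
    {w : ℕ × ℕ} (hw : Der (Rl Tr t0) (Bb Tr t0) (NT.D t.2.2.2 q) w) :
    Der (Rl Tr t0) (Bb Tr t0) (NT.M t q) (t.2.2.1 + w) := by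
  classical
  refine Der.node (Y := NT.E t) (Z := NT.D t.2.2.2 q) ?_ (derE t0 h) hw
  unfold Rl
  rw [Finset.mem_union, Finset.mem_image]
  exact Or.inr ⟨(t, q), Finset.mem_product.2 ⟨h, hq⟩, rfl⟩

lemma derEps {Tr : Finset (Tn T X)} {t0 q : T} {t : Tn T X} (h : t ∈ Tr) (ht : t.2.1 = none)
    (hq : q ∈ St Tr t0) {w : ℕ × ℕ} (hw : Der (Rl Tr t0) (Bb Tr t0) (NT.D t.2.2.2 q) w) :
    Der (Rl Tr t0) (Bb Tr t0) (NT.D t.1 q) (t.2.2.1 + w) := by
  classical
  refine Der.node (Y := NT.E t) (Z := NT.D t.2.2.2 q) ?_ (derE t0 h) hw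
  unfold Rl
  rw [Finset.mem_union, Finset.mem_union, Finset.mem_union, Finset.mem_image]
  exact Or.inl (Or.inl (Or.inl ⟨(t, q), Finset.mem_product.2 ⟨Finset.mem_filter.2 ⟨h, ht⟩, hq⟩,
    rfl⟩))

lemma derL {Tr : Finset (Tn T X)} {t0 q : T} {t : Tn T X} (h : t ∈ Tr) (ht : t.2.1 ≠ none)
    (hq : q ∈ St Tr t0) {w : ℕ × ℕ} (hw : Der (Rl Tr t0) (Bb Tr t0) (NT.N t q) w) :
    Der (Rl Tr t0) (Bb Tr t0) (NT.D t.1 q) (t.2.2.1 + w) := by
  classical
  refine Der.node (Y := NT.E t) (Z := NT.N t q) ?_ (derE t0 h) hw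
  unfold Rl
  rw [Finset.mem_union, Finset.mem_union, Finset.mem_union, Finset.mem_image, Finset.mem_image]
  exact Or.inl (Or.inl (Or.inr ⟨(t, q), Finset.mem_product.2 ⟨Finset.mem_filter.2 ⟨h, ht⟩, hq⟩,
    rfl⟩))

lemma derN {Tr : Finset (Tn T X)} {t0 q : T} {t t' : Tn T X} (h : t ∈ Tr) (h' : t' ∈ Tr)
    {a : X × Bool} (ht : t.2.1 = some a) (ht' : t'.2.1 = some (a.1, !a.2)) (hq : q ∈ St Tr t0)
    {v w : ℕ × ℕ} (hv : Der (Rl Tr t0) (Bb Tr t0) (NT.D t.2.2.2 t'.1) v)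
    (hw : Der (Rl Tr t0) (Bb Tr t0) (NT.M t' q) w) :
    Der (Rl Tr t0) (Bb Tr t0) (NT.N t q) (v + w) := by
  classical
  refine Der.node (Y := NT.D t.2.2.2 t'.1) (Z := NT.M t' q) ?_ hv hw
  unfold Rl
  rw [Finset.mem_union, Finset.mem_union, Finset.mem_image, Finset.mem_image]
  exact Or.inl (Or.inr ⟨((t, t'), q), Finset.mem_product.2 ⟨Finset.mem_filter.2
    ⟨Finset.mem_product.2 ⟨h, h'⟩, a, ht, ht'⟩, hq⟩, rfl⟩)

theorem complete (Tr : Finset (Tn T X)) (t0 : T) : ∀ (n : ℕ) (p q : T) (l : List (X × Bool))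
    (v : ℕ × ℕ), Pth Tr p q l v → l.length = n → FreeGroup.mk l = 1 → p ∈ St Tr t0 →
    q ∈ St Tr t0 → Der (Rl Tr t0) (Bb Tr t0) (NT.D p q) v := by
  intro n
  induction n using Nat.strong_induction_on with
  | _ n ihn =>
    intro p q l v h
    induction h with
    | nil =>
      intro _ _ hp _
      exact derD0 hp
    | @eps p p' q l v w h1 _ ih =>
      intro hn hl hp hq
      have hp' : p' ∈ St Tr t0 := tgt_mem t0 h1
      exact derEps (t := (p, none, v, p')) h1 rfl hq (ih hn hl hp' hq)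
    | @letter p p' q a l v w h1 h2 ih =>
      intro hn hl hp hq
      have hp' : p' ∈ St Tr t0 := tgt_mem t0 h1
      have r1 := red_of_mk hl
      obtain ⟨x, b⟩ := a
      rw [FreeGroup.Red.cons_nil_iff_singleton] at r1
      obtain ⟨l1, l2, e, r2, r3⟩ := red_split r1
      obtain ⟨r, r', v1, v2, v3, i1, i2, i3, rfl⟩ := pth_split h2 l1 l2 _ e
      have hr : r ∈ St Tr t0 := src_mem t0 i2
      have hr' : r' ∈ St Tr t0 := tgt_mem t0 i2
      have hlen : l.length = l1.length + (l2.length + 1) := by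
        rw [e, List.length_append, List.length_cons]
      rw [List.length_cons] at hn
      have d1 := ihn l1.length (by omega) p' r l1 v1 i1 rfl (mk_of_red r2) hp' hr
      have d3 := ihn l2.length (by omega) r' q l2 v3 i3 rfl (mk_of_red r3) hr' hq
      have dM := derM (t := (r, some (x, !b), v2, r')) i2 hq d3
      have dN := derN (t := (p, some (x, b), v, p')) (t' := (r, some (x, !b), v2, r')) h1 i2
        (a := (x, b)) rfl rfl hq d1 dM
      exact derL (t := (p, some (x, b), v, p')) h1 (by simp) hq dN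

theorem t_AUT : S_AUT := by
  intro T X Tr t0
  refine ⟨NT T X, Rl Tr t0, Bb Tr t0, NT.D t0 t0, fun v => ⟨fun h => sound Tr t0 h, ?_⟩⟩
  rintro ⟨l, h, hl⟩
  classical
  have ht : t0 ∈ St Tr t0 := by
    unfold St
    exact Finset.mem_insert_self _ _
  exact complete Tr t0 l.length t0 t0 l v h rfl hl ht ht

end Pool.Agent.K1H33.SR
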